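import Mathlib

set_option autoImplicit false

open Finset Real

namespace Pool.Agent.H.MP_fd33cb_co

variable {α β γ : Type} [Fintype α] [Fintype β] [Fintype γ] [DecidableEq α] [DecidableEq β]
  [DecidableEq γ]

theorem gf (U : Finset γ) (l : ℝ) : ∑ Y : Finset γ, (if U ⊆ Y then l ^ Y.card else 0) =
    l ^ U.card * (l + 1) ^ Uᶜ.card := by
  have h := Fintype.prod_add (fun _ : γ => l) fun a => if a ∈ U then 0 else 1
  rw [← prod_mul_prod_compl U, prod_congr rfl (g := fun _ => l) fun a ha => by simp [ha],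
    prod_congr rfl (s₁ := Uᶜ) (g := fun _ => l + 1) fun a ha => by simp [mem_compl.1 ha],
    prod_const, prod_const] at h
  rw [h]
  refine sum_congr rfl fun Y _ => ?_
  split_ifs with k
  · rw [prod_const, prod_eq_one fun a ha => if_neg fun b => mem_compl.1 ha (k b), mul_one]
  · obtain ⟨a, a1, a2⟩ := not_subset.1 k
    rw [prod_eq_zero (f := fun a => if a ∈ U then (0 : ℝ) else 1) (mem_compl.2 a2) (if_pos a1),
      mul_zero]

theorem two_pow (U : Finset γ) : (2 : ℝ) ^ Uᶜ.card = 2 ^ Fintype.card γ * (1 / 2) ^ U.card := by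
  rw [← card_add_card_compl U, pow_add, mul_right_comm, ← mul_pow]; norm_num

theorem cnt (U : Finset γ) : ∑ Y : Finset γ, (if U ⊆ Y then (1 : ℝ) else 0) =
    2 ^ Fintype.card γ * (1 / 2) ^ U.card := by
  simpa only [one_pow, one_mul, one_add_one_eq_two, two_pow] using gf U 1

theorem mgf (U : Finset γ) (t : ℝ) : ∑ Y : Finset γ, (if U ⊆ Y then
    exp (t * (Y.card - (Fintype.card γ + U.card) / 2)) else 0) ≤
    2 ^ Fintype.card γ * (1 / 2) ^ U.card * exp (t ^ 2 * Fintype.card γ / 8) := by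
  have h1 : ∀ Y : Finset γ, (if U ⊆ Y then exp (t * (Y.card - (Fintype.card γ + U.card) / 2)) else 0) =
      (if U ⊆ Y then exp t ^ Y.card else 0) * (exp (-t) ^ U.card * exp (-(t / 2)) ^ Uᶜ.card) := fun Y => by
    split_ifs
    · simp only [← exp_nat_mul, ← exp_add, ← card_add_card_compl U]
      push_cast; congr 1; ring
    · simp
  have h2 : (exp t + 1) * exp (-(t / 2)) ≤ 2 * exp (t ^ 2 / 8) := by
    have := cosh_le_exp_half_sq (t / 2)
    rw [cosh_eq, show (t / 2) ^ 2 / 2 = t ^ 2 / 8 by ring] at this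
    rw [add_mul, ← exp_add, show t + -(t / 2) = t / 2 by ring]
    linarith
  simp only [h1, ← sum_mul, gf]
  rw [mul_mul_mul_comm, ← mul_pow, ← mul_pow, ← exp_add, add_neg_cancel, exp_zero, one_pow, one_mul,
    ← two_pow]
  refine (pow_le_pow_left₀ (by positivity) h2 _).trans ?_
  rw [mul_pow, ← exp_nat_mul]
  gcongr
  have : (Uᶜ.card : ℝ) ≤ Fintype.card γ := by exact_mod_cast card_le_univ _
  nlinarith [sq_nonneg t]

theorem tail (U : Finset γ) {t x : ℝ} (ht : 0 ≤ t) : ∑ Y : Finset γ, (if U ⊆ Y ∧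
    x < |(Y.card : ℝ) - (Fintype.card γ + U.card) / 2| then (1 : ℝ) else 0) ≤
    2 ^ Fintype.card γ * (1 / 2) ^ U.card * (2 * exp (t ^ 2 * Fintype.card γ / 8 - t * x)) := by
  have h1 := mgf U t
  have h2 := mgf U (-t)
  rw [neg_sq] at h2
  refine le_trans ?_ ((mul_le_mul_of_nonneg_right (add_le_add h1 h2) (exp_pos (-(t * x))).le).trans_eq
    (by rw [sub_eq_add_neg, exp_add]; ring))
  rw [← sum_add_distrib, sum_mul]
  refine sum_le_sum fun Y _ => ?_
  split_ifs with a b b
  · rw [add_mul, ← exp_add, ← exp_add]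
    rcases lt_abs.1 a.2 with c | c
    · exact le_add_of_le_of_nonneg (one_le_exp (by nlinarith)) (exp_pos _).le
    · exact le_add_of_nonneg_of_le (exp_pos _).le (one_le_exp (by nlinarith))
  · exact (b a.1).elim
  · positivity
  · simp

theorem sum_prod (f : α → ℝ) : ∑ A : Finset α, ∏ a ∈ A, f a = ∏ a, (1 + f a) := by
  rw [prod_one_add, powerset_univ]

theorem smallA (s : Finset α) (y : ℝ) :
    ∑ A : Finset α, (if (A ∩ s).card < y then (1 / 4 : ℝ) ^ A.card else 0) ≤
      exp (10 * y + Fintype.card α / 40000) *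
        ∑ A : Finset α, (if A ∩ s = ∅ then (1 / 4 : ℝ) ^ A.card else 0) := by
  have h0 : exp (-10) ≤ 1 / 10000 := by
    rw [exp_neg, one_div, show (10 : ℝ) = (10 : ℕ) * 1 by norm_num, exp_nat_mul]
    gcongr
    exact le_trans (by norm_num) (pow_le_pow_left₀ (by norm_num) exp_one_gt_d9.le 10)
  have h1 : ∑ A : Finset α, (if A ∩ s = ∅ then (1 / 4 : ℝ) ^ A.card else 0) =
      ∏ a, (1 + if a ∈ s then 0 else 1 / 4) := by
    rw [← sum_prod]
    refine sum_congr rfl fun A _ => ?_
    split_ifs with h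
    · rw [← prod_const]
      exact prod_congr rfl fun a ha => (if_neg fun b => notMem_empty a (h ▸ mem_inter.2 ⟨ha, b⟩)).symm
    · obtain ⟨a, ha⟩ := nonempty_iff_ne_empty.2 h
      exact (prod_eq_zero (f := fun a => if a ∈ s then (0 : ℝ) else 1 / 4) (mem_inter.1 ha).1
        (if_pos (mem_inter.1 ha).2)).symm
  refine (sum_le_sum (g := fun A => exp (10 * y) * ∏ a ∈ A, if a ∈ s then exp (-10) / 4 else 1 / 4)
    fun A _ => ?_).trans ?_
  · split_ifs with h
    · rw [prod_congr rfl (g := fun a => 1 / 4 * if a ∈ s then exp (-10) else 1)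
        fun a _ => by split_ifs <;> ring, prod_mul_distrib, prod_const, prod_ite_mem, prod_const,
        mul_left_comm, ← exp_nat_mul, ← exp_add]
      exact le_mul_of_one_le_right (by positivity) (one_le_exp (by linarith))
    · exact mul_nonneg (exp_pos _).le (prod_nonneg fun a _ => by split_ifs <;> positivity)
  rw [← mul_sum, sum_prod, h1, exp_add, mul_assoc, div_eq_mul_one_div (Fintype.card α : ℝ),
    exp_nat_mul, ← card_univ, ← prod_const, ← prod_mul_distrib]
  refine mul_le_mul_of_nonneg_left (prod_le_prod (fun a _ => by split_ifs <;> positivity)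
    fun a _ => ?_) (exp_pos _).le
  have := add_one_le_exp (1 / 40000 : ℝ)
  split_ifs <;> linarith

theorem smallB (y : ℝ) : ∑ B : Finset β, (if B.card < y then (1 : ℝ) else 0) ≤
    exp (10 * y + Fintype.card β / 10000) := by
  have h0 : exp (-10) ≤ 1 / 10000 := by
    rw [exp_neg, one_div, show (10 : ℝ) = (10 : ℕ) * 1 by norm_num, exp_nat_mul]
    gcongr
    exact le_trans (by norm_num) (pow_le_pow_left₀ (by norm_num) exp_one_gt_d9.le 10)
  refine (sum_le_sum (g := fun B => exp (10 * y) * ∏ _a ∈ B, exp (-10)) fun A _ => ?_).trans ?_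
  · split_ifs with h
    · rw [prod_const, ← exp_nat_mul, ← exp_add]
      exact one_le_exp (by linarith)
    · positivity
  rw [← mul_sum, sum_prod, exp_add, div_eq_mul_one_div (Fintype.card β : ℝ), exp_nat_mul, prod_const,
    card_univ]
  gcongr
  linarith [add_one_le_exp (1 / 10000 : ℝ)]

/-- number of penalty vertices between two sets -/
def e (φ : γ → α × β) (A : Finset α) (B : Finset β) : ℕ :=
  (univ.filter fun z => (φ z).1 ∈ A ∧ (φ z).2 ∈ B).card

theorem ex_phi {p N : ℕ} (hp : 0 < p) {ε : ℝ} (hε : 0 < ε) (hN : 80 * p ≤ N * ε ^ 2) :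
    ∃ φ : Fin N → Fin (4 * p) × Fin p, ∀ A B, ε * p ≤ A.card → ε * p ≤ B.card →
      (1 / 2 : ℝ) ^ e φ A B ≤ (1 / 2) ^ (5 * p) := by
  have h0 : (0 : ℝ) < p := by exact_mod_cast hp
  have h1 : ∀ (A : Finset (Fin (4 * p))) (B : Finset (Fin p)), ε * p ≤ A.card → ε * p ≤ B.card →
      ∑ φ : Fin N → Fin (4 * p) × Fin p, (1 / 2 : ℝ) ^ e φ A B ≤ (4 * p * p) ^ N * exp (-(10 * p)) :=
    fun A B a b => by
      have h2 : ∑ x : Fin (4 * p) × Fin p, (if x.1 ∈ A ∧ x.2 ∈ B then (1 / 2 : ℝ) else 1) ≤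
          4 * p * p * exp (-(ε ^ 2 / 8)) := by
        rw [sum_congr rfl (g := fun x => 1 - 1 / 2 * if x ∈ A ×ˢ B then (1 : ℝ) else 0) fun x _ => by
          simp only [mem_product]; split_ifs <;> norm_num, sum_sub_distrib, ← mul_sum]
        simp only [sum_const, card_univ, Fintype.card_prod, Fintype.card_fin, sum_boole,
          filter_mem_eq_inter, univ_inter, card_product, nsmul_eq_mul]
        push_cast
        have := mul_le_mul a b (by positivity) (by positivity)
        nlinarith [mul_le_mul_of_nonneg_left (add_one_le_exp (-(ε ^ 2 / 8))) (show (0 : ℝ) ≤ 4 * p * p by positivity)]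
      rw [sum_congr rfl (g := fun φ => ∏ z, if (φ z).1 ∈ A ∧ (φ z).2 ∈ B then (1 / 2 : ℝ) else 1)
        fun φ _ => by rw [e, ← prod_const, prod_filter]]
      rw [← Fintype.prod_sum fun (_ : Fin N) (x : Fin (4 * p) × Fin p) =>
        if x.1 ∈ A ∧ x.2 ∈ B then (1 / 2 : ℝ) else 1, prod_const, card_univ, Fintype.card_fin]
      refine (pow_le_pow_left₀ (sum_nonneg fun x _ => by split_ifs <;> norm_num) h2 _).trans ?_
      rw [mul_pow, ← exp_nat_mul]
      gcongr
      linarith
  obtain ⟨φ, -, h⟩ := exists_lt_of_sum_lt (s := univ)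
    (f := fun φ : Fin N → Fin (4 * p) × Fin p => ∑ A : Finset (Fin (4 * p)), ∑ B : Finset (Fin p),
      if ε * p ≤ A.card ∧ ε * p ≤ B.card then (1 / 2 : ℝ) ^ e φ A B else 0)
    (g := fun _ => (1 / 2) ^ (5 * p)) (by
      rw [sum_comm]
      refine (sum_le_card_nsmul _ _ (2 ^ p * ((4 * p * p) ^ N * exp (-(10 * p))) : ℝ) fun A _ => ?_).trans_lt ?_
      · rw [sum_comm]
        refine (sum_le_card_nsmul _ _ ((4 * p * p) ^ N * exp (-(10 * p)) : ℝ) fun B _ => ?_).trans
          (by simp)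
        split_ifs with h
        · exact h1 A B h.1 h.2
        · simp; positivity
      have h3 : exp (-10) < (1 / 2) ^ 10 := by
        rw [show (-10 : ℝ) = (10 : ℕ) * (-1) by norm_num, exp_nat_mul]
        gcongr
        exact exp_neg_one_lt_half
      have h4 := pow_lt_pow_left₀ h3 (exp_pos _).le hp.ne'
      rw [← exp_nat_mul, show (p : ℝ) * -10 = -(10 * p) by ring] at h4
      simp only [sum_const, card_univ, Fintype.card_finset, Fintype.card_fun, Fintype.card_prod,
        Fintype.card_fin, nsmul_eq_mul]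
      push_cast
      calc _ = (4 * p * p : ℝ) ^ N * (2 ^ (4 * p) * 2 ^ p * exp (-(10 * p))) := by ring
        _ < (4 * p * p : ℝ) ^ N * (2 ^ (4 * p) * 2 ^ p * ((1 / 2) ^ 10) ^ p) := by gcongr
        _ = _ := by
          rw [pow_mul, pow_mul, ← mul_pow, ← mul_pow]; norm_num)
  refine ⟨φ, fun A B a b => le_trans ?_ h.le⟩
  refine le_trans ?_ (single_le_sum (f := fun A : Finset (Fin (4 * p)) => ∑ B : Finset (Fin p),
    if ε * p ≤ A.card ∧ ε * p ≤ B.card then (1 / 2 : ℝ) ^ e φ A B else 0)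
    (fun A _ => sum_nonneg fun B _ => by split_ifs <;> positivity) (mem_univ A))
  exact (if_pos ⟨a, b⟩).symm.trans_le (single_le_sum (f := fun B : Finset (Fin p) =>
    if ε * p ≤ A.card ∧ ε * p ≤ B.card then (1 / 2 : ℝ) ^ e φ A B else 0)
    (fun B _ => by split_ifs <;> positivity) (mem_univ B))

theorem fin (D : Finset (Finset α)) (C Bad : Finset α → Prop) [DecidablePred C] [DecidablePred Bad]
    {c q x : ℝ} (hx : 0 ≤ x) (hc : 0 ≤ c) (hc' : c ≤ Fintype.card α) (hq : 0 ≤ q)
    (hq' : q ≤ Fintype.card α)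
    (h1 : ∀ S ∈ D, ¬ Bad S → |S.card - (c - if C S then q else 0)| ≤ x)
    (h2 : 2 * ((D.filter C).card : ℝ) ≤ D.card) (h3 : (D.card : ℝ) ≤ 3 * (D.filter C).card)
    (h4 : ((D.filter Bad).card : ℝ) * (Fintype.card α + 1) < D.card) {m : ℕ}
    (hm : ∀ i, (D.filter (·.card = i)).card ≤ (D.filter (·.card = m)).card) :
    q / 3 - 2 * x - 2 ≤ |m - (∑ S ∈ D, (S.card : ℝ)) / D.card| := by
  have a0 : (0 : ℝ) < D.card := lt_of_le_of_lt (by positivity) h4
  have a1 : D.card ≤ (Fintype.card α + 1) * (D.filter (·.card = m)).card := by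
    rw [card_eq_sum_card_fiberwise (f := Finset.card) (t := range (Fintype.card α + 1)) fun S _ => by
      simpa using Nat.lt_succ_of_le (card_le_univ S)]
    simpa using sum_le_card_nsmul (range (Fintype.card α + 1)) _ _ fun i _ => hm i
  obtain ⟨S, a2, a3⟩ := exists_mem_notMem_of_card_lt_card (s := D.filter Bad)
    (t := D.filter (·.card = m)) (by
      have : (D.card : ℝ) ≤ (Fintype.card α + 1) * (D.filter (·.card = m)).card := by exact_mod_cast a1
      exact_mod_cast lt_of_mul_lt_mul_right (h4.trans_le (this.trans_eq (mul_comm _ _))) (by positivity))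
  obtain ⟨a4, rfl⟩ := mem_filter.1 a2
  have a5 := h1 S a4 fun h => a3 (mem_filter.2 ⟨a4, h⟩)
  have a6 : |∑ S ∈ D, (S.card : ℝ) - (c * D.card - q * (D.filter C).card)| ≤
      x * D.card + 2 * Fintype.card α * (D.filter Bad).card := by
    have : c * D.card - q * (D.filter C).card = ∑ S ∈ D, (c - if C S then q else 0) := by
      simp [sum_sub_distrib, ← sum_filter, mul_comm]
    rw [this, ← sum_sub_distrib]
    refine (abs_sum_le_sum_abs _ _).trans ((sum_le_sum (g := fun S => x +
      if Bad S then 2 * (Fintype.card α : ℝ) else 0) fun S hS => ?_).trans_eq ?_)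
    · by_cases h : Bad S
      · have : (S.card : ℝ) ≤ Fintype.card α := by exact_mod_cast card_le_univ S
        have := S.card.cast_nonneg (α := ℝ)
        rw [if_pos h, abs_le]
        split_ifs <;> constructor <;> linarith
      · simpa [h] using h1 S hS h
    · simp [sum_add_distrib, ← sum_filter, mul_comm]
  have a7 := (D.filter Bad).card.cast_nonneg (α := ℝ)
  rw [abs_le] at a5 a6
  rw [le_abs]
  split_ifs at a5
  · right
    rw [neg_sub, le_sub_iff_add_le, le_div_iff₀ a0]
    nlinarith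
  · left
    rw [le_sub_comm, div_le_iff₀ a0]
    nlinarith

end Pool.Agent.H.MP_fd33cb_co
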