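import Pool.Agent.H.MP_fd33cb_co.A

set_option autoImplicit false

open Finset Real

namespace Pool.Agent.H.MP_fd33cb_co

variable {α β γ : Type} [Fintype α] [Fintype β] [Fintype γ] [DecidableEq α] [DecidableEq β]
  [DecidableEq γ] (φ : γ → α × β)

noncomputable def om (s A : Finset α) (B : Finset β) : ℝ := (1 / 4) ^ A.card * (1 / 2) ^ e φ (A ∩ s) B

noncomputable def W1 (y : ℝ) (s : Finset α) : ℝ := ∑ A, ∑ B, if B.card < y then om φ s A B else 0

noncomputable def W2 (y : ℝ) (s : Finset α) : ℝ := ∑ A, ∑ B, if B.card < y then 0 else om φ s A B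

theorem om_pos (s A : Finset α) (B : Finset β) : 0 < om φ s A B := by unfold om; positivity

theorem om_le (s A : Finset α) (B : Finset β) : om φ s A B ≤ (1 / 4) ^ A.card :=
  mul_le_of_le_one_right (by positivity) (pow_le_one₀ (by norm_num) (by norm_num))

theorem W_add (y : ℝ) (s : Finset α) : W1 φ y s + W2 φ y s = ∑ A, ∑ B, om φ s A B := by
  simp only [W1, W2, ← sum_add_distrib]
  exact sum_congr rfl fun A _ => sum_congr rfl fun B _ => by split_ifs <;> simp

theorem om_anti {s t : Finset α} (h : s ⊆ t) (A : Finset α) (B : Finset β) :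
    om φ t A B ≤ om φ s A B :=
  mul_le_mul_of_nonneg_left (pow_le_pow_of_le_one (by norm_num) (by norm_num) (card_le_card
    fun z hz => by
      simp only [mem_filter, mem_inter] at hz ⊢
      exact ⟨hz.1, ⟨hz.2.1.1, h hz.2.1.2⟩, hz.2.2⟩)) (by positivity)

theorem W2_ins (y : ℝ) (s : Finset α) (a : α) : W2 φ y s ≤ 2 * W2 φ y (insert a s) := by
  rw [W2, W2, sum_comm, sum_comm (s := univ (α := Finset α)), mul_sum]
  refine sum_le_sum fun B _ => ?_
  split_ifs
  · simp
  have h : ∀ F : Finset α → ℝ, ∑ A, F A = ∑ A ∈ (univ.erase a).powerset, F A +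
      ∑ A ∈ (univ.erase a).powerset, F (insert a A) := fun F => by
    rw [← sum_powerset_insert (notMem_erase a _), insert_erase (mem_univ a), powerset_univ]
  have h1 : ∀ A ∈ (univ.erase a).powerset, a ∉ A := fun A hA h => by simpa using mem_powerset.1 hA h
  have h2 : ∀ A ∈ (univ.erase a).powerset, om φ s A B = om φ (insert a s) A B := fun A hA => by
    rw [om, om, inter_insert_of_notMem (h1 A hA)]
  have h3 : ∀ A ∈ (univ.erase a).powerset, om φ s (insert a A) B ≤ om φ (insert a s) A B := fun A hA => by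
    rw [← h2 A hA]
    refine mul_le_mul (pow_le_pow_of_le_one (by norm_num) (by norm_num)
      (card_le_card (subset_insert _ _))) (pow_le_pow_of_le_one (by norm_num) (by norm_num)
      (card_le_card fun z hz => ?_)) (by positivity) (by positivity)
    simp only [mem_filter, mem_inter, mem_insert] at hz ⊢
    tauto
  rw [h, h fun A => om φ (insert a s) A B, sum_congr rfl h2]
  linarith [sum_le_sum h3, sum_nonneg (s := (univ.erase a).powerset)
    fun A _ => (om_pos φ (insert a s) (insert a A) B).le]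

theorem lowR {y : ℝ} (hy : 0 < y) (s : Finset α) : ∑ A : Finset α, (1 / 4 : ℝ) ^ A.card ≤ W1 φ y s :=
  sum_le_sum fun A _ => le_trans (by simp [hy, om, e]) (single_le_sum (f := fun B : Finset β =>
    if B.card < y then om φ s A B else 0) (fun B _ => by
      split_ifs; exacts [(om_pos φ _ _ _).le, le_rfl]) (mem_univ ∅))

theorem lowQ (s : Finset α) : 2 ^ Fintype.card β *
    ∑ A : Finset α, (if A ∩ s = ∅ then (1 / 4 : ℝ) ^ A.card else 0) ≤ ∑ A, ∑ B, om φ s A B := by
  rw [mul_sum]
  refine sum_le_sum fun A _ => ?_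
  split_ifs with h
  · simp [om, e, h]
  · simpa using sum_nonneg fun B _ => (om_pos φ s A B).le

theorem one_le_Q (s : Finset α) :
    1 ≤ ∑ A : Finset α, (if A ∩ s = ∅ then (1 / 4 : ℝ) ^ A.card else 0) :=
  le_trans (by simp) (single_le_sum (f := fun A : Finset α =>
    if A ∩ s = ∅ then (1 / 4 : ℝ) ^ A.card else 0) (fun B _ => by positivity) (mem_univ ∅))

variable {φ} {p : ℕ} (hα : Fintype.card α = 4 * p) (hβ : Fintype.card β = p)
  (hm : ∀ A B, 1 / 200000 * (p : ℝ) ≤ A.card → 1 / 200000 * (p : ℝ) ≤ B.card →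
    (1 / 2 : ℝ) ^ e φ A B ≤ (1 / 2) ^ (5 * p))

include hα hβ in
theorem sum_c : ∑ _A : Finset α, ∑ _B : Finset β, (1 / 2 : ℝ) ^ (5 * p) = 1 := by
  simp only [sum_const, card_univ, Fintype.card_finset, hα, hβ, nsmul_eq_mul]
  push_cast
  rw [← mul_assoc, ← pow_add, show 4 * p + p = 5 * p by ring, ← mul_pow]; norm_num

include hm in
theorem om_mix {s A : Finset α} {B : Finset β} (a : ¬ (A ∩ s).card < 1 / 200000 * (p : ℝ))
    (b : ¬ B.card < 1 / 200000 * (p : ℝ)) : om φ s A B ≤ (1 / 2) ^ (5 * p) :=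
  (mul_le_of_le_one_left (by positivity) (pow_le_one₀ (by norm_num) (by norm_num))).trans
    (hm _ _ (not_lt.1 a) (not_lt.1 b))

include hα hβ hm in
theorem tune (hp : 10 ≤ p) (a : α) : ∃ t, a ∈ t ∧ W2 φ (1 / 200000 * p) t ≤
    W1 φ (1 / 200000 * p) t ∧ W1 φ (1 / 200000 * p) t ≤ 2 * W2 φ (1 / 200000 * p) t := by
  have p0 : (10 : ℝ) ≤ p := by exact_mod_cast hp
  have h0 : exp (10 * (1 / 200000 * p) + p / 10000) ≤ (21 / 20) ^ p := by
    rw [show 10 * (1 / 200000 * p) + p / 10000 = p * (3 / 20000 : ℝ) by ring, exp_nat_mul]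
    gcongr
    linarith [exp_bound' (x := 3 / 20000) (by norm_num) (by norm_num) one_pos |>.trans
      (show _ ≤ 21 / 20 by norm_num)]
  have h1 : ∀ a : α, W1 φ (1 / 200000 * p) {a} < W2 φ (1 / 200000 * p) {a} := fun a => by
    have b1 := W2_ins φ (1 / 200000 * p) ∅ a
    have b0 : ∀ s, W1 φ (1 / 200000 * p) s ≤ (∑ A : Finset α, (1 / 4 : ℝ) ^ A.card) * (21 / 20) ^ p :=
      fun s => by
      rw [sum_mul]
      refine sum_le_sum fun A _ => le_trans (sum_le_sum fun B _ => ?_) ((mul_sum _ _ _).symm.trans_le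
        (mul_le_mul_of_nonneg_left ((smallB (β := β) (1 / 200000 * p)).trans (by rw [hβ]; exact h0))
        (by positivity)))
      split_ifs
      · simpa using om_le φ _ _ _
      · simp
    have b2 := b0 {a}
    have b3 := lowQ φ ∅
    have b4 := b0 ∅
    rw [← W_add φ (1 / 200000 * p), hβ] at b3
    simp only [inter_empty, if_true] at b3
    have b5 : 0 < ∑ A : Finset α, (1 / 4 : ℝ) ^ A.card := sum_pos (fun _ _ => by positivity) univ_nonempty
    have b6 : 3 * (21 / 20 : ℝ) ^ p < 2 ^ p := by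
      have := one_add_mul_le_pow (a := (19 / 21 : ℝ)) (by norm_num) p
      rw [show (2 : ℝ) = (1 + 19 / 21) * (21 / 20) by norm_num, mul_pow]
      gcongr; linarith
    rw [insert_empty_eq] at b1
    nlinarith
  have h2 : W2 φ (1 / 200000 * p) univ ≤ W1 φ (1 / 200000 * p) univ := by
    refine le_trans ?_ (lowR φ (by positivity) _)
    have b1 := smallA (univ : Finset α) (1 / 200000 * p)
    rw [show ∑ A : Finset α, (if A ∩ univ = ∅ then (1 / 4 : ℝ) ^ A.card else 0) = 1 by simp, mul_one, hα,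
      show ((4 * p : ℕ) : ℝ) / 40000 = p / 10000 by push_cast; ring] at b1
    have b2 : W2 φ (1 / 200000 * p) univ ≤ 1 + 2 ^ p * (21 / 20) ^ p := by
      refine le_trans ?_ (add_le_add (sum_c hα hβ).le
        (mul_le_mul_of_nonneg_left (b1.trans h0) (by positivity)))
      rw [mul_sum, ← sum_add_distrib]
      refine sum_le_sum fun A _ => (sum_le_sum (g := fun _ => (1 / 2) ^ (5 * p) +
        if (A ∩ univ).card < 1 / 200000 * (p : ℝ) then (1 / 4 : ℝ) ^ A.card else 0) fun B _ => ?_).trans_eq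
        (by simp [sum_add_distrib, hβ])
      split_ifs with c1 c2 c2
      · positivity
      · positivity
      · exact le_add_of_nonneg_of_le (by positivity) (om_le φ _ _ _)
      · simpa using om_mix hm c2 c1
    have b3 := sum_prod fun _ : α => (1 / 4 : ℝ)
    simp only [prod_const, card_univ, hα] at b3
    have b4 := one_add_mul_le_pow (a := (1 / 10 : ℝ)) (by norm_num) p
    have b5 : (1 : ℝ) ≤ (2 * (21 / 20)) ^ p := one_le_pow₀ (by norm_num)
    rw [b3, pow_mul]
    rw [← mul_pow] at b2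
    refine le_trans ?_ (pow_le_pow_left₀ (a := (1 + 1 / 10) * (2 * (21 / 20))) (by norm_num) (by norm_num) p)
    rw [mul_pow]
    nlinarith
  by_contra h3
  push Not at h3
  have h4 : ∀ t : Finset α, W1 φ (1 / 200000 * p) (insert a t) < W2 φ (1 / 200000 * p) (insert a t) :=
    fun t => by
      induction t using Finset.induction_on with
      | empty => exact h1 a
      | insert b t _ ih =>
        rw [insert_comm]
        by_contra c
        have c1 := h3 _ (by simp) (not_lt.1 c)
        have c2 : W1 φ (1 / 200000 * p) (insert b (insert a t)) ≤ W1 φ (1 / 200000 * p) (insert a t) :=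
          sum_le_sum fun A _ => sum_le_sum fun B _ => by
            split_ifs; exacts [om_anti φ (subset_insert _ _) _ _, le_rfl]
        linarith [W2_ins φ (1 / 200000 * p) (insert a t) b]
  exact h2.not_gt (insert_eq_of_mem (mem_univ a) ▸ h4 univ)

include hα hβ hm in
theorem bad (hp : 0 < p) (s : Finset α) : ∑ A, ∑ B : Finset β, (if (p : ℝ) / 72 < e φ (A ∩ s) B ∨
    (¬ B.card < 1 / 200000 * (p : ℝ) ∧ (p : ℝ) / 72 < |(B.card : ℝ) - p / 2|) then om φ s A B else 0) ≤
    5 * exp (-(p / 5184)) * ∑ A, ∑ B, om φ s A B := by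
  have p0 : (0 : ℝ) < p := by exact_mod_cast hp
  have a1 := smallA s (1 / 200000 * p)
  have a2 := smallB (β := β) (1 / 200000 * p)
  have a3 := tail (∅ : Finset β) (t := 1 / 18) (x := p / 72) (by norm_num)
  have a4 := lowQ φ s
  have a5 := (lowR φ (y := 1 / 200000 * p) (by positivity) s).trans ((le_add_of_nonneg_right
    (sum_nonneg fun A _ => sum_nonneg fun B _ => by
      split_ifs; exacts [le_rfl, (om_pos φ _ _ _).le])).trans_eq (W_add φ _ s))
  have a6 := one_le_Q s
  simp only [empty_subset, true_and, card_empty, Nat.cast_zero, add_zero, pow_zero, mul_one, hα, hβ]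
    at a1 a2 a3 a4
  refine (sum_le_sum fun A _ => sum_le_sum (g := fun B : Finset β => (1 / 2 : ℝ) ^ (5 * p) +
    (if (A ∩ s).card < 1 / 200000 * (p : ℝ) then (1 / 4 : ℝ) ^ A.card else 0) *
      (exp (-(p / 144)) + if (p : ℝ) / 72 < |(B.card : ℝ) - p / 2| then 1 else 0) +
    (1 / 4 : ℝ) ^ A.card * exp (-(p / 144)) * if B.card < 1 / 200000 * (p : ℝ) then 1 else 0)
    fun B _ => ?_).trans ?_
  · have b1 : (p : ℝ) / 72 < e φ (A ∩ s) B → om φ s A B ≤ (1 / 4) ^ A.card * exp (-(p / 144)) := fun h => by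
      refine mul_le_mul_of_nonneg_left ((pow_le_pow_left₀ (b := exp (-(1 / 2))) (by norm_num)
        (by linarith [add_one_le_exp (-(1 / 2) : ℝ)]) _).trans ?_) (by positivity)
      rw [← exp_nat_mul, exp_le_exp]; linarith
    have b2 := om_le φ s A B
    have b3 : (0 : ℝ) < (1 / 2) ^ (5 * p) := by positivity
    have b4 : 0 < (1 / 4 : ℝ) ^ A.card * exp (-(p / 144)) := by positivity
    have b5 : 0 < (1 / 4 : ℝ) ^ A.card := by positivity
    by_cases c1 : B.card < 1 / 200000 * (p : ℝ) <;> by_cases c2 : (A ∩ s).card < 1 / 200000 * (p : ℝ) <;>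
      by_cases c3 : (p : ℝ) / 72 < |(B.card : ℝ) - p / 2| <;>
      by_cases c4 : (p : ℝ) / 72 < e φ (A ∩ s) B <;>
      simp only [c1, c2, c3, c4, not_true, not_false_iff, true_and, false_and, true_or, or_true,
        or_false, false_or, if_true, if_false, mul_add] <;>
      first | linarith | linarith [b1 c4] | linarith [om_mix hm c2 c1]
  simp only [sum_add_distrib, ← mul_sum, ← sum_mul, sum_c hα hβ]
  simp only [sum_const, card_univ, Fintype.card_finset, hβ, nsmul_eq_mul]
  push_cast at a1 ⊢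
  generalize ∑ A, ∑ B, om φ s A B = W at *
  generalize ∑ A : Finset α, (if A ∩ s = ∅ then (1 / 4 : ℝ) ^ A.card else 0) = Q at *
  have b0 := exp_pos (-(p / 5184) : ℝ)
  have b1 : 1 ≤ exp (-(p / 5184)) * 2 ^ p := by
    rw [show -((p : ℝ) / 5184) = p * (-(1 / 5184)) by ring, exp_nat_mul, ← mul_pow]
    exact one_le_pow₀ (by linarith [add_one_le_exp (-(1 / 5184) : ℝ)])
  have b2 : exp (10 * (1 / 200000 * p) + 4 * p / 40000) * exp (-(p / 144)) ≤ exp (-(p / 5184)) := by
    rw [← exp_add, exp_le_exp]; linarith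
  have b3 : exp (10 * (1 / 200000 * p) + 4 * p / 40000) * exp ((1 / 18) ^ 2 * p / 8 - 1 / 18 * (p / 72)) ≤
      exp (-(p / 5184)) := by
    rw [← exp_add, exp_le_exp]; linarith
  have b4 : exp (-(p / 144)) * exp (10 * (1 / 200000 * p) + p / 10000) ≤ exp (-(p / 5184)) := by
    rw [← exp_add, exp_le_exp]; linarith
  have b5 : (0 : ℝ) < 2 ^ p := by positivity
  have b6 := mul_le_mul a1 (add_le_add_right a3 (2 ^ p * exp (-(p / 144)))) (by positivity)
    (by positivity)
  have b7 := mul_le_mul (mul_le_mul_of_nonneg_right a5 (exp_pos (-(p / 144))).le) a2 (by positivity)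
    (by have : 0 ≤ W := by nlinarith
        positivity)
  have b8 := mul_le_mul_of_nonneg_left b2 (show 0 ≤ 2 ^ p * Q by positivity)
  have b9 := mul_le_mul_of_nonneg_left b3 (show 0 ≤ 2 ^ p * Q by positivity)
  have c1 := mul_le_mul_of_nonneg_left b4 (show 0 ≤ W by nlinarith)
  have c2 := mul_le_mul_of_nonneg_left a4 b0.le
  nlinarith

end Pool.Agent.H.MP_fd33cb_co
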