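import Pool.Agent.H.MP_fd33cb_co.B

set_option autoImplicit false

open Finset Real

namespace Pool.Agent.H.MP_fd33cb_co

variable {α β γ : Type} [Fintype α] [Fintype β] [Fintype γ] [DecidableEq α] [DecidableEq β]
  [DecidableEq γ] (φ : γ → α × β) (s : Finset α)

def Nb : (α × Bool) ⊕ γ → α ⊕ β → Prop
  | .inl a, k => k = .inl a.1
  | .inr z, k => (φ z).1 ∈ s ∧ (k = .inl (φ z).1 ∨ k = .inr (φ z).2)

def gr : SimpleGraph ((α ⊕ β) ⊕ ((α × Bool) ⊕ γ)) := .fromRel fun u v => match u, v with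
  | .inl _, .inl _ => True
  | .inr z, .inl k => Nb φ s z k
  | _, .inr _ => False

def und (A : Finset α) (B : Finset β) : Finset ((α × Bool) ⊕ γ) :=
  (A ×ˢ univ).disjSum (univ.filter fun z => (φ z).1 ∈ s → (φ z).1 ∈ A ∧ (φ z).2 ∈ B)

def mk (A : Finset α) (B : Finset β) (Y : Finset γ) : Finset ((α ⊕ β) ⊕ γ) :=
  (Aᶜ.disjSum Bᶜ).disjSum Y

theorem sum_mk (F : Finset ((α ⊕ β) ⊕ γ) → ℝ) : ∑ S, F S = ∑ A, ∑ B, ∑ Y, F (mk A B Y) := by
  have h : ∀ {a b : Type} [Fintype a] [Fintype b] (F : Finset (a ⊕ b) → ℝ),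
      ∑ S, F S = ∑ A : Finset a, ∑ B : Finset b, F (A.disjSum B) := fun F => by
    rw [← Fintype.sum_prod_type' (fun A B => F (disjSum A B))]
    exact (Equiv.sum_comp sumEquiv.symm.toEquiv F).symm
  rw [h, h, ← Equiv.sum_comp (compl_involutive (α := Finset α)).toPerm]
  exact sum_congr rfl fun A _ => (Equiv.sum_comp (compl_involutive (α := Finset β)).toPerm _).symm

theorem card_mk (A : Finset α) (B : Finset β) (Y : Finset γ) : ((mk A B Y).card : ℝ) =
    Fintype.card α + Fintype.card β - A.card - B.card + Y.card := by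
  rw [mk, card_disjSum, card_disjSum, ← card_add_card_compl A, ← card_add_card_compl B]
  push_cast; ring

theorem card_und (A : Finset α) (B : Finset β) : (und φ s A B).card =
    2 * A.card + e φ (A ∩ s) B + (univ.filter fun z => (φ z).1 ∉ s).card := by
  rw [und, card_disjSum, card_product, card_univ, Fintype.card_bool, mul_comm, add_assoc, e,
    ← card_union_of_disjoint (disjoint_filter.2 fun z _ h k => k (mem_inter.1 h.1).2), ← filter_or]
  congr 3; ext z; simp only [mem_inter]; tauto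

theorem dom (hs : ∀ k, ∃ z, Nb φ s z k) (A : Finset α) (B : Finset β) (Y : Finset ((α × Bool) ⊕ γ)) :
    (∀ v, v ∈ mk A B Y ∨ ∃ w ∈ mk A B Y, (gr φ s).Adj v w) ↔ und φ s A B ⊆ Y := by
  have h0 : ∀ z, z ∈ und φ s A B ↔ ∀ k, Nb φ s z k → k ∉ Aᶜ.disjSum Bᶜ := fun z => by
    rcases z with z | z <;> simp [und, Nb, or_imp, forall_and]
  constructor
  · intro h z hz
    rcases h (.inr z) with k | ⟨w | w, k, l⟩
    · simpa [mk] using k
    · exact ((h0 z).1 hz w (by simpa [gr] using l) (by simpa only [mk, inl_mem_disjSum] using k)).elim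
    · simp [gr] at l
  · rintro h (k | z)
    · by_cases c : ∃ j, j ∈ Aᶜ.disjSum Bᶜ
      · obtain ⟨j, hj⟩ := c
        by_cases d : k = j
        · exact .inl (by simpa only [mk, inl_mem_disjSum, d] using hj)
        · exact .inr ⟨.inl j, by simpa only [mk, inl_mem_disjSum] using hj, by simpa [gr] using d⟩
      · obtain ⟨z, hz⟩ := hs k
        exact .inr ⟨.inr z, by simpa [mk] using h ((h0 z).2 fun j _ hj => c ⟨j, hj⟩),
          by simpa [gr] using hz⟩
    · by_cases c : z ∈ und φ s A B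
      · exact .inl (by simpa [mk] using h c)
      · rw [h0] at c
        push Not at c
        obtain ⟨k, a, b⟩ := c
        exact .inr ⟨.inl k, by simpa only [mk, inl_mem_disjSum] using b, by simpa [gr] using a⟩

open Classical in
/-- the dominating sets -/
noncomputable def DS {V : Type} [Fintype V] (G : SimpleGraph V) : Finset (Finset V) :=
  univ.filter fun S => ∀ v, v ∈ S ∨ ∃ w ∈ S, G.Adj v w

theorem und_om (A : Finset α) (B : Finset β) : (1 / 2 : ℝ) ^ (und φ s A B).card =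
    (1 / 2) ^ (univ.filter fun z => (φ z).1 ∉ s).card * om φ s A B := by
  rw [card_und, pow_add, pow_add, pow_mul, om, mul_comm]; norm_num

theorem card_DS (hs : ∀ k, ∃ z, Nb φ s z k) (P : Finset ((α ⊕ β) ⊕ ((α × Bool) ⊕ γ)) → Prop)
    [DecidablePred P] : (((DS (gr φ s)).filter P).card : ℝ) =
      ∑ A, ∑ B, ∑ Y, if und φ s A B ⊆ Y ∧ P (mk A B Y) then 1 else 0 := by
  rw [DS, filter_filter, card_filter]
  push_cast
  rw [sum_mk]
  simp only [dom φ s hs]

theorem mkA (A : Finset α) (B : Finset β) (Y : Finset γ) : (mk A B Y).toLeft.toLeftᶜ = A := by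
  simp [mk]

theorem mkB (A : Finset α) (B : Finset β) (Y : Finset γ) : (mk A B Y).toLeft.toRightᶜ = B := by
  simp [mk]

theorem mkY (A : Finset α) (B : Finset β) (Y : Finset γ) : (mk A B Y).toRight = Y := by
  simp [mk]

theorem card_P (hs : ∀ k, ∃ z, Nb φ s z k) (P : Finset α → Finset β → Prop) [∀ A B, Decidable (P A B)] :
    (((DS (gr φ s)).filter fun S => P S.toLeft.toLeftᶜ S.toLeft.toRightᶜ).card : ℝ) =
      2 ^ Fintype.card ((α × Bool) ⊕ γ) * (1 / 2) ^ (univ.filter fun z => (φ z).1 ∉ s).card *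
        ∑ A, ∑ B, if P A B then om φ s A B else 0 := by
  rw [card_DS φ s hs]
  simp only [mkA, mkB, mul_sum]
  refine sum_congr rfl fun A _ => sum_congr rfl fun B _ => ?_
  split_ifs with h
  · simp only [h, and_true, cnt, und_om, mul_assoc]
  · simp [h]

theorem main {p : ℕ} (hα : Fintype.card α = 4 * p) (hβ : Fintype.card β = p)
    (hm : ∀ A B, 1 / 200000 * (p : ℝ) ≤ A.card → 1 / 200000 * (p : ℝ) ≤ B.card →
      (1 / 2 : ℝ) ^ e φ A B ≤ (1 / 2) ^ (5 * p)) (hp : 10 ≤ p) (a : α) (hs : ∀ b, ∃ z, φ z = (a, b))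
    {K : ℝ} (hK : 1 ≤ K) (hZ : 8 * p + Fintype.card γ ≤ K * p)
    (hn : 7 * exp (-(p / (5184 * K))) * (13 * p + Fintype.card γ + 1) < 1) :
    ∃ G : SimpleGraph ((α ⊕ β) ⊕ ((α × Bool) ⊕ γ)), ∀ m : ℕ, (∀ i, ((DS G).filter (·.card = i)).card ≤
      ((DS G).filter (·.card = m)).card) →
      (p : ℝ) / 12 - 2 ≤ |m - (∑ S ∈ DS G, (S.card : ℝ)) / (DS G).card| := by
  obtain ⟨s, ha, t1, t2⟩ := tune hα hβ hm hp a
  have p0 : (10 : ℝ) ≤ p := by exact_mod_cast hp
  have hs' : ∀ k, ∃ z, Nb φ s z k := by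
    rintro (k | k)
    · exact ⟨.inl (k, true), rfl⟩
    · obtain ⟨z, hz⟩ := hs k
      exact ⟨.inr z, by simp [Nb, hz, ha]⟩
  have hz : (Fintype.card ((α × Bool) ⊕ γ) : ℝ) = 8 * p + Fintype.card γ := by
    simp [hα]; ring
  have hv : (Fintype.card ((α ⊕ β) ⊕ ((α × Bool) ⊕ γ)) : ℝ) = 13 * p + Fintype.card γ := by
    simp [hα, hβ]; ring
  have hc : ((univ.filter fun z => (φ z).1 ∉ s).card : ℝ) ≤ Fintype.card γ := by
    exact_mod_cast card_le_univ _
  have c1 := card_P φ s hs' fun _ _ => True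
  have c2 := card_P φ s hs' fun _ B => ¬ B.card < 1 / 200000 * (p : ℝ)
  have c3 := card_P φ s hs' fun A B => (p : ℝ) / 72 < e φ (A ∩ s) B ∨
    (¬ B.card < 1 / 200000 * (p : ℝ) ∧ (p : ℝ) / 72 < |(B.card : ℝ) - p / 2|)
  have c4 := card_DS φ s hs' fun S => (p : ℝ) / 72 < |(S.toRight.card : ℝ) -
    (Fintype.card ((α × Bool) ⊕ γ) + (und φ s S.toLeft.toLeftᶜ S.toLeft.toRightᶜ).card) / 2|
  have c5 := bad hα hβ hm (by omega) s
  simp only [mkA, mkB, mkY, filter_true, if_true, ite_not] at c1 c2 c4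
  have c6 := c4.trans_le (sum_le_sum fun A _ => sum_le_sum fun B _ => tail (und φ s A B)
    (t := 1 / (18 * K)) (x := p / 72) (by positivity))
  simp only [und_om, ← mul_assoc, ← sum_mul, ← mul_sum] at c6
  rw [← W_add φ (1 / 200000 * p)] at c1 c5 c6
  change _ = _ * W2 φ _ s at c2
  have hH : (0 : ℝ) < 2 ^ Fintype.card ((α × Bool) ⊕ γ) *
    (1 / 2) ^ (univ.filter fun z => (φ z).1 ∉ s).card := by positivity
  have hW : 0 < W1 φ (1 / 200000 * p) s + W2 φ (1 / 200000 * p) s := by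
    rw [W_add]; exact sum_pos (fun _ _ => sum_pos (fun _ _ => om_pos _ _ _ _) univ_nonempty) univ_nonempty
  refine ⟨gr φ s, fun m hm => le_trans (by linarith) (fin (DS (gr φ s))
    (fun S => ¬ S.toLeft.toRightᶜ.card < 1 / 200000 * (p : ℝ))
    (fun S => ((p : ℝ) / 72 < e φ (S.toLeft.toLeftᶜ ∩ s) S.toLeft.toRightᶜ ∨
      (¬ S.toLeft.toRightᶜ.card < 1 / 200000 * (p : ℝ) ∧
        (p : ℝ) / 72 < |(S.toLeft.toRightᶜ.card : ℝ) - p / 2|)) ∨
      (p : ℝ) / 72 < |(S.toRight.card : ℝ) -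
    (Fintype.card ((α × Bool) ⊕ γ) + (und φ s S.toLeft.toLeftᶜ S.toLeft.toRightᶜ).card) / 2|)
    (c := 5 * p + (8 * p + Fintype.card γ + (univ.filter fun z => (φ z).1 ∉ s).card) / 2)
    (q := p / 2) (x := p / 24) (by positivity) (by positivity) (by linarith) (by positivity)
    (by rw [hv]; linarith [Nat.cast_nonneg (α := ℝ) (Fintype.card γ)]) ?_ ?_ ?_ ?_ hm)⟩
  · intro S _ h
    have h1 := card_mk S.toLeft.toLeftᶜ S.toLeft.toRightᶜ S.toRight
    rw [mk, compl_compl, compl_compl, toLeft_disjSum_toRight, toLeft_disjSum_toRight, hα, hβ] at h1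
    rw [card_und, hz] at h
    push_cast at h h1
    simp only [not_or, not_and, not_lt, abs_le] at h ⊢
    have := Nat.cast_nonneg (α := ℝ) (e φ (S.toLeft.toLeftᶜ ∩ s) S.toLeft.toRightᶜ)
    have := Nat.cast_nonneg (α := ℝ) S.toLeft.toRightᶜ.card
    split_ifs with k
    · have := h.1.2 k
      constructor <;> linarith
    · constructor <;> linarith
  · rw [c1, c2]; nlinarith
  · rw [c1, c2]; nlinarith
  · have d1 : exp (-(p / 5184)) ≤ exp (-(p / (5184 * K))) := by
      gcongr; linarith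
    have d2 : exp ((1 / (18 * K)) ^ 2 * Fintype.card ((α × Bool) ⊕ γ) / 8 - 1 / (18 * K) * (p / 72)) ≤
        exp (-(p / (5184 * K))) := by
      rw [exp_le_exp, hz]
      refine le_trans (sub_le_sub_right (div_le_div_of_nonneg_right (mul_le_mul_of_nonneg_left hZ
        (by positivity)) (by norm_num)) _) ?_
      field_simp; nlinarith
    rw [filter_or, hv]
    refine (mul_le_mul_of_nonneg_right ((Nat.cast_le.2 (card_union_le _ _)).trans (b := _)
      (c := 7 * exp (-(p / (5184 * K))) * (DS (gr φ s)).card) ?_) (by positivity)).trans_lt ?_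
    · push_cast
      rw [c1, c3]
      nlinarith [mul_le_mul_of_nonneg_left c5 hH.le, mul_le_mul_of_nonneg_left d1 (mul_pos hH hW).le,
        mul_le_mul_of_nonneg_left d2 (mul_pos hH hW).le]
    · rw [c1]; nlinarith [mul_pos hH hW]

end Pool.Agent.H.MP_fd33cb_co
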